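import Pool.Agent.R725.Count

set_option autoImplicit false

/-!
# MP_8024d7_al: Frobenius parabolic complements to a nilpotent orbit in `sl_n`

For every `n ≥ 3` we give a nilpotent `e` of Jordan type `(3, 2^(k-2), 1)` (`n = 2 k`) or
`(3, 2^(k-1))` (`n = 2 k + 1`) and a standard parabolic subalgebra `𝔭` of `sl_n` with
`sl_n = sl_n^e ⊕ 𝔭`. Here `𝔭` is a Frobenius parabolic subalgebra of minimal dimension. The idea: for
a generic `e` and a flag with steps `1, 2, …, 2` (and another step `1` in the middle if `n` is even)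
the space `ker e²` decomposes canonically into pieces `k² ⊗ k[e]/e²`, and this gives normal forms in
which `e v_j = v_(n-j)` for `1 ≤ j < n/2`.
-/

namespace Pool.Agent.Results.MP_8024d7_al.FrobeniusComplement

open Matrix Pool.Agent.R725.Par

section defs

variable (K : Type*) [Field K] (n : ℕ)

/-- `sl_n`, the space of the matrices of trace zero -/
def sl : Submodule K (Matrix (Fin n) (Fin n) K) where
  carrier := {x | x.trace = 0}
  add_mem' := by
    intro a b ha hb
    simp only [Set.mem_ofPred_eq] at *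
    rw [trace_add, ha, hb, add_zero]
  zero_mem' := by simp
  smul_mem' := by
    intro c x hx
    simp only [Set.mem_ofPred_eq] at *
    rw [trace_smul, hx, smul_zero]

variable {K n}

/-- the centraliser of `e` in `sl_n` -/
def centralizer (e : Matrix (Fin n) (Fin n) K) : Submodule K (Matrix (Fin n) (Fin n) K) where
  carrier := {x | x.trace = 0 ∧ x * e = e * x}
  add_mem' := by
    rintro a b ⟨ha, ha'⟩ ⟨hb, hb'⟩
    exact ⟨by rw [trace_add, ha, hb, add_zero], by rw [add_mul, mul_add, ha', hb']⟩
  zero_mem' := by simp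
  smul_mem' := by
    rintro c x ⟨hx, hx'⟩
    exact ⟨by rw [trace_smul, hx, smul_zero], by rw [smul_mul_assoc, mul_smul_comm, hx']⟩

/-- `𝔥` is a Lie subalgebra of `sl_n` -/
def IsSubalgebra (𝔥 : Submodule K (Matrix (Fin n) (Fin n) K)) : Prop :=
  𝔥 ≤ sl K n ∧ ∀ x ∈ 𝔥, ∀ y ∈ 𝔥, x * y - y * x ∈ 𝔥

/-- `𝔭` is a parabolic subalgebra of `sl_n`: a subalgebra which contains a Borel subalgebra, that is
a conjugate `g 𝔟 g⁻¹` of the algebra `𝔟` of the upper triangular matrices of trace zero -/
def IsParabolic (𝔭 : Submodule K (Matrix (Fin n) (Fin n) K)) : Prop :=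
  IsSubalgebra 𝔭 ∧ ∃ g : GL (Fin n) K, ∀ x : Matrix (Fin n) (Fin n) K, x.trace = 0 →
    (∀ i j, j < i → x i j = 0) → (g : Matrix (Fin n) (Fin n) K) * x * (g⁻¹ : GL (Fin n) K) ∈ 𝔭

/-- `𝔮` is a Frobenius Lie algebra: for some linear functional `ξ` the stabiliser
`𝔮^ξ = {x ∈ 𝔮 : ξ([x, y]) = 0 for all y ∈ 𝔮}` is zero. (The functional on `𝔮` is given as the
restriction of a functional on all matrices.) -/
def IsFrobenius (𝔮 : Submodule K (Matrix (Fin n) (Fin n) K)) : Prop :=
  ∃ ξ : Module.Dual K (Matrix (Fin n) (Fin n) K),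
    ∀ x ∈ 𝔮, (∀ y ∈ 𝔮, ξ (x * y - y * x) = 0) → x = 0

/-- `e` is nilpotent of Jordan type `l`, where the multiset `l` is a partition of `n`: for every `j`
the rank of `e ^ j` is the sum of the numbers `max (a - j) 0` over the parts `a` of `l`. -/
def HasJordanType (e : Matrix (Fin n) (Fin n) K) (l : Multiset ℕ) : Prop :=
  ∀ j : ℕ, (e ^ j).rank = (l.map (fun a => a - j)).sum

/-- the partition `(3, 2^(k-2), 1)` for `n = 2 k` and `(3, 2^(k-1))` for `n = 2 k + 1` -/
def lam (n : ℕ) : Multiset ℕ :=
  if n % 2 = 0 then 3 ::ₘ 1 ::ₘ Multiset.replicate (n / 2 - 2) 2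
  else 3 ::ₘ Multiset.replicate (n / 2 - 1) 2

end defs

section coords

variable {K : Type*} [Field K] {n : ℕ}

/-- matrices as functions on pairs of natural numbers -/
def ex (x : Matrix (Fin n) (Fin n) K) (i j : ℕ) : K :=
  if h : i < n ∧ j < n then x ⟨i, h.1⟩ ⟨j, h.2⟩ else 0

theorem ex_apply (x : Matrix (Fin n) (Fin n) K) (i j : Fin n) : ex x i j = x i j := by
  simp [ex]

/-- the nilpotent element: `e v_0 = ∑ v_m` over `cc n m`, `e v_j = v_(n - j)` for `1 ≤ j < n / 2` and
`e v_j = 0` for the other `j` -/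
def E (K : Type*) [Field K] (n : ℕ) : Matrix (Fin n) (Fin n) K :=
  Matrix.of fun i j => if j.1 = 0 then (if cc n i.1 then 1 else 0)
    else (if i.1 + j.1 = n ∧ 2 * j.1 < n then 1 else 0)

theorem mul_E (x : Matrix (Fin n) (Fin n) K) (i j : Fin n) (hj : 1 ≤ j.1) :
    (x * E K n) i j = if 2 * j.1 < n then ex x i (n - j.1) else 0 := by
  rw [mul_apply]
  split_ifs with h
  · rw [Finset.sum_eq_single ⟨n - j.1, by omega⟩]
    · rw [ex, dif_pos ⟨i.2, by omega⟩]
      simp only [E, of_apply]
      rw [if_neg (by omega), if_pos ⟨by omega, h⟩, mul_one]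
    · intro m _ hm
      simp only [E, of_apply]
      rw [if_neg (by omega), if_neg, mul_zero]
      rintro ⟨h1, h2⟩
      apply hm
      apply Fin.ext
      simp only
      omega
    · intro h'
      exact absurd (Finset.mem_univ _) h'
  · apply Finset.sum_eq_zero
    intro m _
    simp only [E, of_apply]
    rw [if_neg (by omega), if_neg (by omega), mul_zero]

theorem mul_E0 (hn : 3 ≤ n) (x : Matrix (Fin n) (Fin n) K) (i : Fin n) :
    (x * E K n) i ⟨0, by omega⟩ =
      ∑ m ∈ Finset.range n, ex x i m * (if cc n m then 1 else 0) := by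
  rw [mul_apply, ← Fin.sum_univ_eq_sum_range (fun m => ex x i m * (if cc n m then 1 else 0)) n]
  apply Finset.sum_congr rfl
  intro m _
  rw [ex_apply]
  simp [E]

theorem E_apply (i m : Fin n) : E K n i m = (if m.1 = 0 then (if cc n i.1 then 1 else 0) else 0) +
    (if i.1 + m.1 = n ∧ n < 2 * i.1 then 1 else 0) := by
  simp only [E, of_apply]
  by_cases hm : m.1 = 0
  · rw [if_pos hm, if_pos hm, if_neg (show ¬ (i.1 + m.1 = n ∧ n < 2 * i.1) by omega), add_zero]
  · rw [if_neg hm, if_neg hm, zero_add]
    apply if_congr _ rfl rfl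
    omega

theorem E_mul (hn : 3 ≤ n) (x : Matrix (Fin n) (Fin n) K) (i j : Fin n) :
    (E K n * x) i j = (if cc n i.1 then ex x 0 j else 0) +
      (if n < 2 * i.1 then ex x (n - i.1) j else 0) := by
  rw [mul_apply]
  simp only [E_apply, add_mul]
  rw [Finset.sum_add_distrib]
  congr 1
  · rw [Finset.sum_eq_single ⟨0, by omega⟩]
    · rw [ex, dif_pos ⟨by omega, j.2⟩]
      simp only [if_true]
      split_ifs <;> simp
    · intro m _ hm
      rw [if_neg, zero_mul]
      intro h
      exact hm (Fin.ext h)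
    · intro h'
      exact absurd (Finset.mem_univ _) h'
  · split_ifs with h
    · rw [Finset.sum_eq_single ⟨n - i.1, by omega⟩]
      · rw [ex, dif_pos ⟨by omega, j.2⟩, if_pos ⟨by simp only; omega, h⟩, one_mul]
      · intro m _ hm
        rw [if_neg, zero_mul]
        rintro ⟨h1, h2⟩
        apply hm
        apply Fin.ext
        simp only
        omega
      · intro h'
        exact absurd (Finset.mem_univ _) h'
    · apply Finset.sum_eq_zero
      intro m _
      rw [if_neg (by omega), zero_mul]

theorem comm_eq_Y (hn : 3 ≤ n) (x : Matrix (Fin n) (Fin n) K) (i j : Fin n) (hj : 1 ≤ j.1) :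
    (x * E K n - E K n * x) i j = Y n (ex x) i j := by
  rw [Matrix.sub_apply, mul_E x i j hj, E_mul hn, Y]

/-- the parabolic subalgebra of `gl_n`: block upper triangular matrices -/
def P (K : Type*) [Field K] (n : ℕ) : Submodule K (Matrix (Fin n) (Fin n) K) where
  carrier := {x | ∀ i j : Fin n, bl n j < bl n i → x i j = 0}
  add_mem' := by
    intro a b ha hb i j h
    rw [Matrix.add_apply, ha i j h, hb i j h, add_zero]
  zero_mem' := by
    intro i j _
    rfl
  smul_mem' := by
    intro c x hx i j h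
    rw [Matrix.smul_apply, hx i j h, smul_zero]

/-- A matrix of `P` commuting with `E` is scalar. -/
theorem P_scalar (hn : 3 ≤ n) (x : Matrix (Fin n) (Fin n) K) (hx : x ∈ P K n)
    (hc : x * E K n = E K n * x) : ∃ a : K, x = a • 1 := by
  have h1 := scalar n hn (ex x)
    (by
      intro i j hi hj h
      have := hx ⟨i, hi⟩ ⟨j, hj⟩ h
      rw [← ex_apply x] at this
      exact this)
    (by
      intro i j hi hj hjn
      have := comm_eq_Y hn x ⟨i, hi⟩ ⟨j, hjn⟩ hj
      rw [← this, hc, sub_self, Matrix.zero_apply])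
    (by
      intro i hi
      have h1 := mul_E0 hn x ⟨i, hi⟩
      rw [hc, E_mul hn] at h1
      exact h1.symm)
  refine ⟨ex x 0 0, ?_⟩
  ext i j
  rw [← ex_apply x, h1 i j i.2 j.2, Matrix.smul_apply, Matrix.one_apply]
  by_cases hij : i = j
  · rw [if_pos hij, if_pos (by rw [hij]), smul_eq_mul, mul_one]
  · rw [if_neg hij, if_neg (fun h => hij (Fin.ext h)), smul_zero]

/-- If `[x, E]` is strictly block upper triangular, then it is zero. -/
theorem comm_zero (hn : 3 ≤ n) (x : Matrix (Fin n) (Fin n) K)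
    (hx : ∀ i j : Fin n, bl n j ≤ bl n i → (x * E K n - E K n * x) i j = 0) :
    x * E K n = E K n * x := by
  have h1 := noNil n hn (ex x) (by
    intro i j hi hj hjn hb
    have := comm_eq_Y hn x ⟨i, hi⟩ ⟨j, hjn⟩ hj
    rw [← this]
    exact hx _ _ hb)
  rw [← sub_eq_zero]
  ext i j
  by_cases hj : 1 ≤ j.1
  · rw [comm_eq_Y hn x i j hj, h1 i j i.2 hj j.2, Matrix.zero_apply]
  · rw [hx i j, Matrix.zero_apply]
    have : j.1 = 0 := by omega
    rw [this]
    unfold bl
    split_ifs <;> omega


/-- the strictly block upper triangular matrices vanish at the positions in `S` -/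
abbrev S (n : ℕ) : Type := {s : Fin n × Fin n // bl n s.2 ≤ bl n s.1}

/-- `P` has the same dimension as the space of functions on `S`. -/
noncomputable def PEquiv : P K n ≃ₗ[K] (S n → K) where
  toFun x := fun s => x.1 s.1.2 s.1.1
  map_add' := by
    intro x y
    rfl
  map_smul' := by
    intro c x
    rfl
  invFun f := ⟨Matrix.of fun i j => if h : bl n i ≤ bl n j then f ⟨(j, i), h⟩ else 0, by
    intro i j h
    simp only [of_apply]
    rw [dif_neg (by omega)]⟩
  left_inv := by
    intro x
    apply Subtype.ext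
    ext i j
    simp only [of_apply]
    split_ifs with h
    · rfl
    · exact (x.2 i j (by omega)).symm
  right_inv := by
    intro f
    funext s
    simp only [of_apply]
    rw [dif_pos s.2]

/-- restriction of a matrix to the positions in `S` -/
def resS : Matrix (Fin n) (Fin n) K →ₗ[K] (S n → K) where
  toFun x := fun s => x s.1.1 s.1.2
  map_add' := by
    intro x y
    rfl
  map_smul' := by
    intro c x
    rfl

/-- the commutator with `E` -/
def adE (K : Type*) [Field K] (n : ℕ) : Matrix (Fin n) (Fin n) K →ₗ[K] Matrix (Fin n) (Fin n) K where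
  toFun x := x * E K n - E K n * x
  map_add' := by
    intro x y
    rw [add_mul, mul_add]
    abel
  map_smul' := by
    intro c x
    rw [smul_mul_assoc, mul_smul_comm, RingHom.id_apply, smul_sub]

/-- the trace on functions on `S` -/
def trS : (S n → K) →ₗ[K] K where
  toFun f := ∑ i : Fin n, f ⟨(i, i), le_rfl⟩
  map_add' := by
    intro f g
    simp [Finset.sum_add_distrib]
  map_smul' := by
    intro c f
    simp [Finset.mul_sum]

theorem one_mem_P : (1 : Matrix (Fin n) (Fin n) K) ∈ P K n := by
  intro i j h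
  rw [Matrix.one_apply, if_neg]
  rintro rfl
  exact lt_irrefl _ h

/-- `gl_n = gl_n^e + P` -/
theorem exists_decomp (hn : 3 ≤ n) (z : Matrix (Fin n) (Fin n) K) :
    ∃ x ∈ P K n, (z - x) * E K n = E K n * (z - x) := by
  classical
  let g : P K n →ₗ[K] (S n → K) := resS ∘ₗ adE K n ∘ₗ (P K n).subtype
  have hker : LinearMap.ker g ≤ Submodule.span K {(⟨1, one_mem_P⟩ : P K n)} := by
    intro x hx
    rw [LinearMap.mem_ker] at hx
    have h1 : x.1 * E K n = E K n * x.1 := by
      apply comm_zero hn
      intro i j h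
      exact congrFun hx ⟨(i, j), h⟩
    obtain ⟨a, ha⟩ := P_scalar hn x.1 x.2 h1
    rw [Submodule.mem_span_singleton]
    exact ⟨a, Subtype.ext ha.symm⟩
  have hker1 : Module.finrank K (LinearMap.ker g) ≤ 1 :=
    (Submodule.finrank_mono hker).trans (le_of_eq (finrank_span_singleton (by
      intro h
      have h1 := congrArg Subtype.val h
      have h2 := congrFun (congrFun h1 ⟨0, by omega⟩) ⟨0, by omega⟩
      simp at h2)))
  have hdim : Module.finrank K (P K n) = Module.finrank K (S n → K) := PEquiv.finrank_eq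
  have hrk := LinearMap.finrank_range_add_finrank_ker g
  have htr : ∀ z : Matrix (Fin n) (Fin n) K, trS (resS (adE K n z)) = 0 := by
    intro z
    change ∑ i : Fin n, (z * E K n - E K n * z) i i = 0
    have : ∑ i : Fin n, (z * E K n - E K n * z) i i = (z * E K n - E K n * z).trace := rfl
    rw [this, trace_sub, trace_mul_comm, sub_self]
  have hle : LinearMap.range g ≤ LinearMap.ker (trS : (S n → K) →ₗ[K] K) := by
    rintro _ ⟨x, rfl⟩
    exact htr x.1
  have hsurj : Function.Surjective (trS : (S n → K) →ₗ[K] K) := by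
    intro a
    refine ⟨fun s => if s.1 = (⟨0, by omega⟩, ⟨0, by omega⟩) then a else 0, ?_⟩
    change ∑ i : Fin n, _ = a
    rw [Finset.sum_eq_single ⟨0, by omega⟩]
    · simp
    · intro i _ hi
      change (if ((i, i) : Fin n × Fin n) = (⟨0, by omega⟩, ⟨0, by omega⟩) then a else 0) = 0
      rw [if_neg]
      intro h
      exact hi (congrArg Prod.fst h)
    · intro h
      exact absurd (Finset.mem_univ _) h
  have hrk2 := LinearMap.finrank_range_add_finrank_ker (trS : (S n → K) →ₗ[K] K)
  rw [LinearMap.range_eq_top.2 hsurj, finrank_top, Module.finrank_self] at hrk2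
  have heq : LinearMap.range g = LinearMap.ker (trS : (S n → K) →ₗ[K] K) := by
    apply Submodule.eq_of_le_of_finrank_le hle
    omega
  have hz : resS (adE K n z) ∈ LinearMap.range g := by
    rw [heq]
    exact htr z
  obtain ⟨x, hx⟩ := hz
  refine ⟨x.1, x.2, ?_⟩
  apply comm_zero hn
  intro i j h
  have h1 := congrFun hx ⟨(i, j), h⟩
  change (x.1 * E K n - E K n * x.1) i j = (z * E K n - E K n * z) i j at h1
  have h2 : (z - x.1) * E K n - E K n * (z - x.1) =
      (z * E K n - E K n * z) - (x.1 * E K n - E K n * x.1) := by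
    rw [sub_mul, mul_sub]
    abel
  rw [h2, Matrix.sub_apply, h1, sub_self]

end coords

section main

variable {K : Type*} [Field K] [CharZero K] {n : ℕ}

theorem trace_smul_one (hn : 3 ≤ n) (a : K) (h : (a • (1 : Matrix (Fin n) (Fin n) K)).trace = 0) :
    a = 0 := by
  rw [trace_smul, trace_one, smul_eq_mul, Fintype.card_fin] at h
  exact (mul_eq_zero.1 h).resolve_right (by exact_mod_cast (by omega : n ≠ 0))

theorem inf_eq (hn : 3 ≤ n) : centralizer (E K n) ⊓ (P K n ⊓ sl K n) = ⊥ := by
  rw [eq_bot_iff]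
  rintro x ⟨⟨h1, h2⟩, h3, -⟩
  obtain ⟨a, rfl⟩ := P_scalar hn x h3 h2
  rw [Submodule.mem_bot, trace_smul_one hn a h1, zero_smul]

theorem sup_eq (hn : 3 ≤ n) : centralizer (E K n) ⊔ (P K n ⊓ sl K n) = sl K n := by
  have hn0 : (n : K) ≠ 0 := by exact_mod_cast (by omega : n ≠ 0)
  apply le_antisymm
  · apply sup_le
    · intro x hx
      exact hx.1
    · exact inf_le_right
  · intro z hz
    obtain ⟨x, hx, hc⟩ := exists_decomp hn z
    rw [Submodule.mem_sup]
    refine ⟨(z - x) + (x.trace / n) • 1, ⟨?_, ?_⟩, x - (x.trace / n) • 1, ⟨?_, ?_⟩, by abel⟩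
    · rw [trace_add, trace_sub, trace_smul, trace_one, Fintype.card_fin, (hz : z.trace = 0),
        smul_eq_mul, div_mul_cancel₀ _ hn0]
      ring
    · rw [add_mul, mul_add, hc, smul_mul_assoc, mul_smul_comm, one_mul, mul_one]
    · exact (P K n).sub_mem hx ((P K n).smul_mem _ one_mem_P)
    · change (x - (x.trace / n) • 1).trace = 0
      rw [trace_sub, trace_smul, trace_one, Fintype.card_fin, smul_eq_mul, div_mul_cancel₀ _ hn0,
        sub_self]

theorem bl_mono (i j : ℕ) (h : i ≤ j) : bl n i ≤ bl n j := by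
  unfold bl
  split_ifs <;> omega

omit [CharZero K] in
theorem P_mul (x y : Matrix (Fin n) (Fin n) K) (hx : x ∈ P K n) (hy : y ∈ P K n) :
    x * y ∈ P K n := by
  intro i j h
  rw [mul_apply]
  apply Finset.sum_eq_zero
  intro m _
  by_cases hm : bl n m < bl n i
  · rw [hx i m hm, zero_mul]
  · rw [hy m j (by omega), mul_zero]

omit [CharZero K] in
theorem isParabolic : IsParabolic (P K n ⊓ sl K n) := by
  refine ⟨⟨inf_le_right, ?_⟩, 1, ?_⟩
  · rintro x ⟨hx, -⟩ y ⟨hy, -⟩
    refine ⟨(P K n).sub_mem (P_mul x y hx hy) (P_mul y x hy hx), ?_⟩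
    change (x * y - y * x).trace = 0
    rw [trace_sub, trace_mul_comm, sub_self]
  · intro x hx hx'
    simp only [Units.val_one, one_mul, inv_one, mul_one]
    refine ⟨?_, hx⟩
    intro i j h
    apply hx'
    by_contra hcon
    push Not at hcon
    have := bl_mono (n := n) i.1 j.1 hcon
    omega

theorem isFrobenius (hn : 3 ≤ n) : IsFrobenius (P K n ⊓ sl K n) := by
  classical
  refine ⟨(Matrix.traceLinearMap (Fin n) K K) ∘ₗ LinearMap.mulLeft K (E K n), ?_⟩
  rintro x ⟨hx, hxt⟩ h
  -- the commutator of `e` and `x` is orthogonal to `𝔭`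
  have h1 : ∀ y ∈ P K n ⊓ sl K n, ((x * E K n - E K n * x) * y).trace = 0 := by
    intro y hy
    have h2 := h y hy
    simp only [LinearMap.comp_apply, LinearMap.mulLeft_apply, Matrix.traceLinearMap_apply] at h2
    rw [mul_sub, trace_sub] at h2
    rw [sub_mul, trace_sub, mul_assoc x, trace_mul_comm x, mul_assoc (E K n) y x,
      mul_assoc (E K n) x y, ← neg_sub, h2, neg_zero]
  -- off-diagonal positions
  have h2 : ∀ i j : Fin n, bl n j ≤ bl n i → i ≠ j → (x * E K n - E K n * x) i j = 0 := by
    intro i j hb hij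
    have h3 := h1 (single j i 1) ⟨?_, ?_⟩
    · rwa [trace_mul_single, MulOpposite.op_one, one_smul] at h3
    · intro a b hab
      rw [single_apply, if_neg]
      rintro ⟨rfl, rfl⟩
      omega
    · exact trace_single_eq_of_ne _ _ _ hij.symm
  -- diagonal positions
  have h3 : ∀ i j : Fin n, (x * E K n - E K n * x) i i = (x * E K n - E K n * x) j j := by
    intro i j
    have h4 := h1 (single i i 1 - single j j 1) ⟨(P K n).sub_mem ?_ ?_, ?_⟩
    · rw [mul_sub, trace_sub, trace_mul_single, trace_mul_single, MulOpposite.op_one, one_smul,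
        one_smul] at h4
      exact sub_eq_zero.1 h4
    · intro a b hab
      rw [single_apply, if_neg]
      rintro ⟨rfl, rfl⟩
      omega
    · intro a b hab
      rw [single_apply, if_neg]
      rintro ⟨rfl, rfl⟩
      omega
    · change (single i i 1 - single j j 1 : Matrix (Fin n) (Fin n) K).trace = 0
      rw [trace_sub, trace_single_eq_same, trace_single_eq_same, sub_self]
  have h4 : ∀ i : Fin n, (x * E K n - E K n * x) i i = 0 := by
    intro i
    have h5 : ∑ j : Fin n, (x * E K n - E K n * x) j j = 0 := by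
      have h6 : (x * E K n - E K n * x).trace = 0 := by rw [trace_sub, trace_mul_comm, sub_self]
      exact h6
    rw [Finset.sum_congr rfl (fun j _ => h3 j i), Finset.sum_const, Finset.card_univ,
      Fintype.card_fin, nsmul_eq_mul] at h5
    exact (mul_eq_zero.1 h5).resolve_left (by exact_mod_cast (by omega : n ≠ 0))
  have h5 : x * E K n = E K n * x := by
    apply comm_zero hn
    intro i j hb
    by_cases hij : i = j
    · subst hij
      exact h4 i
    · exact h2 i j hb hij
  obtain ⟨a, rfl⟩ := P_scalar hn x hx h5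
  rw [trace_smul_one hn a hxt, zero_smul]

end main

section jordan

variable {K : Type*} [Field K] {n : ℕ}

theorem rank_of_ker (A : Matrix (Fin n) (Fin n) K) (p : Fin n → Prop) [DecidablePred p]
    (h : ∀ v, A *ᵥ v = 0 ↔ ∀ i, p i → v i = 0) : A.rank = Fintype.card {i // p i} := by
  let π : (Fin n → K) →ₗ[K] ({i // p i} → K) := LinearMap.funLeft K K Subtype.val
  have hπ : Function.Surjective π :=
    LinearMap.funLeft_surjective_of_injective K K _ Subtype.val_injective
  have hker : LinearMap.ker A.mulVecLin = LinearMap.ker π := by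
    ext v
    rw [LinearMap.mem_ker, LinearMap.mem_ker, mulVecLin_apply, h]
    constructor
    · intro h1
      funext i
      exact h1 i.1 i.2
    · intro h1 i hi
      exact congrFun h1 ⟨i, hi⟩
  have h1 := LinearMap.finrank_range_add_finrank_ker A.mulVecLin
  have h2 := LinearMap.finrank_range_add_finrank_ker π
  rw [hker] at h1
  rw [LinearMap.range_eq_top.2 hπ, finrank_top, Module.finrank_pi] at h2
  rw [Matrix.rank]
  omega

/-- vectors as functions on natural numbers -/
def vx (v : Fin n → K) (i : ℕ) : K := if h : i < n then v ⟨i, h⟩ else 0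

theorem vx_apply (v : Fin n → K) (i : Fin n) : vx v i = v i := by
  simp [vx]

theorem E_mulVec (hn : 3 ≤ n) (v : Fin n → K) (i : Fin n) :
    (E K n *ᵥ v) i = (if cc n i.1 then vx v 0 else 0) +
      (if n < 2 * i.1 then vx v (n - i.1) else 0) := by
  have h1 := E_mul hn (Matrix.of fun (a _ : Fin n) => v a) i ⟨0, by omega⟩
  rw [mul_apply] at h1
  simp only [of_apply] at h1
  rw [mulVec, dotProduct, h1]
  have h2 : ∀ a : ℕ, ex (Matrix.of fun (a _ : Fin n) => v a) a 0 = vx v a := by
    intro a
    unfold ex vx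
    by_cases ha : a < n
    · rw [dif_pos ⟨ha, by omega⟩, dif_pos ha, of_apply]
    · rw [dif_neg (by tauto), dif_neg ha]
  simp only [h2]

theorem E_ker (hn : 3 ≤ n) (v : Fin n → K) :
    E K n *ᵥ v = 0 ↔ ∀ i : Fin n, 2 * i.1 < n → v i = 0 := by
  constructor
  · intro h
    have h0 : vx v 0 = 0 := by
      have h1 : (if cc n 1 then vx v 0 else 0) + (if n < 2 * 1 then vx v (n - 1) else 0) =
          (0 : K) := (E_mulVec hn v ⟨1, by omega⟩).symm.trans (congrFun h _)
      rw [if_pos (by unfold cc; omega), if_neg (by omega), add_zero] at h1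
      exact h1
    intro i hi
    by_cases hi0 : i.1 = 0
    · rw [← vx_apply v i, hi0]
      exact h0
    · have h1 : (if cc n (n - i.1) then vx v 0 else 0) +
          (if n < 2 * (n - i.1) then vx v (n - (n - i.1)) else 0) =
          (0 : K) := (E_mulVec hn v ⟨n - i.1, by omega⟩).symm.trans (congrFun h _)
      rw [h0, ite_self, zero_add, if_pos (by omega), show n - (n - i.1) = i.1 by omega,
        vx_apply] at h1
      exact h1
  · intro h
    have h' : ∀ i : ℕ, 2 * i < n → vx v i = 0 := by
      intro i hi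
      exact (vx_apply v ⟨i, by omega⟩).trans (h ⟨i, by omega⟩ hi)
    funext i
    rw [E_mulVec hn, h' 0 (by omega), ite_self, zero_add]
    split_ifs with hi
    · rw [h' _ (by omega)]
      rfl
    · rfl

theorem E2_ker (hn : 3 ≤ n) (v : Fin n → K) :
    (E K n * E K n) *ᵥ v = 0 ↔ ∀ i : Fin n, i.1 = 0 → v i = 0 := by
  rw [← mulVec_mulVec, E_ker hn]
  constructor
  · intro h i hi
    have h1 : (if cc n 1 then vx v 0 else 0) + (if n < 2 * 1 then vx v (n - 1) else 0) =
        (0 : K) := (E_mulVec hn v ⟨1, by omega⟩).symm.trans (h ⟨1, by omega⟩ (by simp only; omega))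
    rw [if_pos (by unfold cc; omega), if_neg (by omega), add_zero] at h1
    rw [← vx_apply v i, hi]
    exact h1
  · intro h i hi
    have h0 : vx v 0 = 0 := (vx_apply v ⟨0, by omega⟩).trans (h ⟨0, by omega⟩ rfl)
    rw [E_mulVec hn, h0, ite_self, if_neg (by omega), add_zero]

theorem E3_zero (hn : 3 ≤ n) : E K n * E K n * E K n = 0 := by
  have h : ∀ v, (E K n * E K n * E K n) *ᵥ v = 0 := by
    intro v
    rw [← mulVec_mulVec, E2_ker hn]
    intro i hi
    rw [E_mulVec hn, if_neg (by unfold cc; omega), if_neg (by omega), add_zero]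
  ext i j
  have h1 := congrFun (h (Pi.single j 1)) i
  rw [mulVec_single_one] at h1
  exact h1

theorem card_half (n : ℕ) : Fintype.card {i : Fin n // 2 * i.1 < n} = (n + 1) / 2 := by
  rw [← Fintype.card_fin ((n + 1) / 2)]
  exact Fintype.card_congr
    { toFun := fun i => ⟨i.1.1, by have := i.2; omega⟩
      invFun := fun i => ⟨⟨i.1, by have := i.2; omega⟩, by have := i.2; simp only; omega⟩
      left_inv := fun i => rfl
      right_inv := fun i => rfl }

theorem hasJordanType (hn : 3 ≤ n) : HasJordanType (E K n) (lam n) := by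
  intro j
  have hsum : ((lam n).map (fun a => a - j)).sum =
      if j = 0 then n else if j = 1 then (n + 1) / 2 else if j = 2 then 1 else 0 := by
    unfold lam
    split_ifs with h1 h2 h3 h4 <;>
      simp only [Multiset.map_cons, Multiset.sum_cons, Multiset.map_replicate,
        Multiset.sum_replicate, smul_eq_mul]
    · subst h2; omega
    · subst h3; omega
    · subst h4; omega
    · have e1 : 3 - j = 0 := by omega
      have e2 : 1 - j = 0 := by omega
      have e3 : 2 - j = 0 := by omega
      rw [e1, e2, e3]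
      simp
    · rename_i h5
      subst h5; omega
    · rename_i h5 h6
      subst h6; omega
    · rename_i h5 h6 h7
      subst h7; omega
    · have e1 : 3 - j = 0 := by omega
      have e3 : 2 - j = 0 := by omega
      rw [e1, e3]
      simp
  rw [hsum]
  rcases Nat.lt_or_ge j 3 with hj | hj
  · interval_cases j
    · rw [pow_zero, rank_one, Fintype.card_fin]
      simp
    · rw [pow_one, rank_of_ker _ _ (E_ker hn), card_half]
      simp
    · rw [pow_two, rank_of_ker _ _ (E2_ker hn)]
      simp only [OfNat.ofNat_ne_zero, if_false, OfNat.ofNat_ne_one, if_true]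
      rw [Fintype.card_eq_one_iff]
      exact ⟨⟨⟨0, by omega⟩, rfl⟩, fun y => Subtype.ext (Fin.ext y.2)⟩
  · have h3 : E K n ^ j = 0 := by
      obtain ⟨m, rfl⟩ := Nat.exists_eq_add_of_le hj
      rw [pow_add, pow_succ, pow_two, E3_zero hn, zero_mul]
    rw [h3, rank_zero, if_neg (by omega), if_neg (by omega), if_neg (by omega)]

end jordan

section final

variable {K : Type*} [Field K] [CharZero K] {n : ℕ}

/-- `𝔭` has the smallest dimension among the Frobenius parabolic subalgebras. -/
theorem minimalDim (hn : 3 ≤ n) (𝔮 : Submodule K (Matrix (Fin n) (Fin n) K))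
    (h𝔮 : IsParabolic 𝔮) (h𝔮' : IsFrobenius 𝔮) :
    Module.finrank K (P K n ⊓ sl K n : Submodule K (Matrix (Fin n) (Fin n) K)) ≤
      Module.finrank K 𝔮 := by
  obtain ⟨-, g, hg⟩ := h𝔮
  obtain ⟨ξ, hξ⟩ := h𝔮'
  have h1 := Pool.Agent.R725.Minimal.minimal 𝔮 g hg ξ hξ
  have h2 := Pool.Agent.R725.Count.card_le n hn
  have h3 : Module.finrank K (P K n) = Fintype.card (S n) := by
    rw [(PEquiv (K := K) (n := n)).finrank_eq, Module.finrank_pi]
  have h4 : (P K n ⊓ sl K n : Submodule K (Matrix (Fin n) (Fin n) K)) < P K n := by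
    apply lt_of_le_of_ne inf_le_left
    intro h
    have h5 : (1 : Matrix (Fin n) (Fin n) K) ∈ P K n ⊓ sl K n := by
      rw [h]
      exact one_mem_P
    have h6 : ((1 : K) • (1 : Matrix (Fin n) (Fin n) K)).trace = 0 := by
      rw [one_smul]
      exact h5.2
    exact one_ne_zero (trace_smul_one hn (1 : K) h6)
  have h5 := Submodule.finrank_lt_finrank_of_lt h4
  have h6 : Fintype.card (S n) = Fintype.card {s : Fin n × Fin n // bl n s.2 ≤ bl n s.1} := rfl
  omega

/-- **MP_8024d7_al, Q1 (positive answer).** For every `n ≥ 3` there are a nilpotent `e ∈ sl_n` of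
Jordan type `λ = (3, 2^(k-2), 1)` (if `n = 2 k`) or `λ = (3, 2^(k-1))` (if `n = 2 k + 1`) and a
Frobenius parabolic subalgebra `𝔭` of `sl_n`, of minimal dimension among all Frobenius parabolic
subalgebras, such that `sl_n = sl_n^e ⊕ 𝔭`. -/
theorem result (K : Type*) [Field K] [CharZero K] (n : ℕ) (hn : 3 ≤ n) :
    ∃ (e : Matrix (Fin n) (Fin n) K) (𝔭 : Submodule K (Matrix (Fin n) (Fin n) K)),
      HasJordanType e (lam n) ∧ IsParabolic 𝔭 ∧ IsFrobenius 𝔭 ∧
      (∀ 𝔮 : Submodule K (Matrix (Fin n) (Fin n) K), IsParabolic 𝔮 → IsFrobenius 𝔮 →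
        Module.finrank K 𝔭 ≤ Module.finrank K 𝔮) ∧
      centralizer e ⊓ 𝔭 = ⊥ ∧ centralizer e ⊔ 𝔭 = sl K n :=
  ⟨E K n, P K n ⊓ sl K n, hasJordanType hn, isParabolic, isFrobenius hn,
    fun 𝔮 h h' => minimalDim hn 𝔮 h h', inf_eq hn, sup_eq hn⟩

end final

end Pool.Agent.Results.MP_8024d7_al.FrobeniusComplement
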